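import Pool.Agent.T9h54.FF.Spec
import Pool.Agent.T9h54.LZ.W

/-!
# FF, piece (EL): Gauss sums of an arbitrary character lifted by one new prime
-/

set_option autoImplicit false
set_option linter.unusedSectionVars false

namespace Pool.Agent.T9h22.FF

open Finset DirichletCharacter Pool.Agent.T9h54.LZ

section

variable {q P : ℕ} [NeZero q] [NeZero P] [NeZero (q * P)]

/-- the Gauss sum as a sum over a range -/
theorem cc_range {Q : ℕ} [NeZero Q] (X : DirichletCharacter ℂ Q) (n : ℕ) :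
    cc X n = ∑ b ∈ range Q, X⁻¹ (b : ZMod Q) * (ZMod.stdAddChar ((n * b : ℕ) : ZMod Q) : ℂ) := by
  have e1 : ∑ b ∈ range Q, X⁻¹ (b : ZMod Q) * (ZMod.stdAddChar ((n * b : ℕ) : ZMod Q) : ℂ) =
      ∑ b : ZMod Q, X⁻¹ b * ad b n := by
    rw [← sum_range_zmod Q]
    refine Finset.sum_congr rfl fun b _ => ?_
    unfold ad
    push_cast
    rfl
  rw [e1]
  unfold cc
  classical
  rw [← Finset.sum_subset (Finset.subset_univ (univ.filter fun b : ZMod Q => IsUnit b))]
  · refine Finset.sum_bij (fun (b : (ZMod Q)ˣ) _ => (b : ZMod Q)) ?_ ?_ ?_ ?_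
    · intro b _
      simp
    · intro b _ c _ h
      exact Units.ext h
    · intro b hb
      rw [mem_filter] at hb
      exact ⟨hb.2.unit, mem_univ _, rfl⟩
    · intro b _
      rfl
  · intro b _ hb
    have : ¬ IsUnit b := by
      intro h
      exact hb (mem_filter.2 ⟨mem_univ _, h⟩)
    rw [MulChar.map_nonunit _ this, zero_mul]

/-- The Gauss sums of the lifted character, without primitivity. -/
theorem cc_lift' (hP : P.Prime) (hPq : ¬ P ∣ q) (χ : DirichletCharacter ℂ q)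
    (n : ℕ) : cc (changeLevel (dvd_mul_right q P) χ) n =
      (if P ∣ n then (P : ℂ) * cc χ (n / P) else 0) - χ⁻¹ (P : ZMod q) * cc χ n := by
  have hg : ∀ m : ℕ, ∑ i ∈ range q, χ⁻¹ (i : ZMod q) *
      (ZMod.stdAddChar ((m * i : ℕ) : ZMod q) : ℂ) = cc χ m := fun m => (cc_range χ m).symm
  set X := changeLevel (dvd_mul_right q P) χ with hX
  have hXinv : X⁻¹ = changeLevel (dvd_mul_right q P) χ⁻¹ := by rw [hX, map_inv]
  rw [cc_range X n]
  have s2 : ∑ b ∈ range (q * P), X⁻¹ (b : ZMod (q * P)) *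
      (ZMod.stdAddChar ((n * b : ℕ) : ZMod (q * P)) : ℂ) =
      (∑ b ∈ range (q * P), χ⁻¹ (b : ZMod q) *
      (ZMod.stdAddChar ((n * b : ℕ) : ZMod (q * P)) : ℂ)) -
      ∑ b ∈ (range (q * P)).filter (fun b => P ∣ b), χ⁻¹ (b : ZMod q) *
      (ZMod.stdAddChar ((n * b : ℕ) : ZMod (q * P)) : ℂ) := by
    rw [Finset.sum_filter, ← Finset.sum_sub_distrib]
    refine Finset.sum_congr rfl fun b _ => ?_
    rw [hXinv, lift_apply hP hPq]
    split_ifs with h <;> simp
  have s3 : ∑ b ∈ range (q * P), χ⁻¹ (b : ZMod q) *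
      (ZMod.stdAddChar ((n * b : ℕ) : ZMod (q * P)) : ℂ) =
      if P ∣ n then (P : ℂ) * cc χ (n / P) else 0 := by
    rw [sum_range_mul_add, Finset.sum_comm]
    have e1 : ∀ i ∈ range q, ∑ k ∈ range P, χ⁻¹ ((q * k + i : ℕ) : ZMod q) *
        (ZMod.stdAddChar ((n * (q * k + i) : ℕ) : ZMod (q * P)) : ℂ) =
        χ⁻¹ (i : ZMod q) * (ZMod.stdAddChar ((n * i : ℕ) : ZMod (q * P)) : ℂ) *
          (if P ∣ n then (P : ℂ) else 0) := by
      intro i _
      rw [← sum_P (q := q) (P := P) n, Finset.mul_sum]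
      refine Finset.sum_congr rfl fun k _ => ?_
      have e2 : ((q * k + i : ℕ) : ZMod q) = (i : ZMod q) := by
        push_cast
        rw [ZMod.natCast_self]
        ring
      have e3 : ((n * (q * k + i) : ℕ) : ZMod (q * P)) =
          ((n * i : ℕ) : ZMod (q * P)) + ((n * (q * k) : ℕ) : ZMod (q * P)) := by
        push_cast
        ring
      rw [e2, e3, AddChar.map_add_eq_mul]
      ring
    rw [Finset.sum_congr rfl e1, ← Finset.sum_mul]
    split_ifs with h
    · obtain ⟨m, rfl⟩ := h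
      rw [Nat.mul_div_cancel_left m hP.pos]
      have e4 : ∀ i ∈ range q, χ⁻¹ (i : ZMod q) *
          (ZMod.stdAddChar ((P * m * i : ℕ) : ZMod (q * P)) : ℂ) =
          χ⁻¹ (i : ZMod q) * (ZMod.stdAddChar ((m * i : ℕ) : ZMod q) : ℂ) := by
        intro i _
        rw [← std_scale (q := q) (P := P) m i]
        congr 2
        congr 1
        ring
      rw [Finset.sum_congr rfl e4, hg m]
      ring
    · simp
  have s4 : ∑ b ∈ (range (q * P)).filter (fun b => P ∣ b), χ⁻¹ (b : ZMod q) *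
      (ZMod.stdAddChar ((n * b : ℕ) : ZMod (q * P)) : ℂ) =
      χ⁻¹ (P : ZMod q) * cc χ n := by
    have e1 : ∑ b ∈ (range (q * P)).filter (fun b => P ∣ b), χ⁻¹ (b : ZMod q) *
        (ZMod.stdAddChar ((n * b : ℕ) : ZMod (q * P)) : ℂ) =
        ∑ i ∈ range q, χ⁻¹ ((P * i : ℕ) : ZMod q) *
        (ZMod.stdAddChar ((n * (P * i) : ℕ) : ZMod (q * P)) : ℂ) := by
      symm
      refine Finset.sum_bij (fun i _ => P * i) ?_ ?_ ?_ ?_
      · intro i hi
        rw [mem_range] at hi
        rw [mem_filter, mem_range]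
        refine ⟨?_, dvd_mul_right _ _⟩
        rw [mul_comm q P]
        exact Nat.mul_lt_mul_of_pos_left hi hP.pos
      · intro i _ j _ h
        exact Nat.eq_of_mul_eq_mul_left hP.pos h
      · intro b hb
        rw [mem_filter, mem_range] at hb
        obtain ⟨hb1, i, rfl⟩ := hb
        refine ⟨i, ?_, rfl⟩
        rw [mem_range]
        rw [mul_comm q P] at hb1
        exact Nat.lt_of_mul_lt_mul_left hb1
      · intro i _
        rfl
    rw [e1]
    have e2 : ∀ i ∈ range q, χ⁻¹ ((P * i : ℕ) : ZMod q) *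
        (ZMod.stdAddChar ((n * (P * i) : ℕ) : ZMod (q * P)) : ℂ) =
        χ⁻¹ (P : ZMod q) * (χ⁻¹ (i : ZMod q) * (ZMod.stdAddChar ((n * i : ℕ) : ZMod q) : ℂ)) := by
      intro i _
      rw [std_scale]
      push_cast
      rw [map_mul]
      ring
    rw [Finset.sum_congr rfl e2, ← Finset.mul_sum, hg n]
  rw [s2, s3, s4]

/-- sums over the divisors of `q P` -/
theorem sum_divisors (hP : P.Prime) (hPq : ¬ P ∣ q) (f : ℕ → ℂ) :
    ∑ d ∈ (q * P).divisors, f d = ∑ d ∈ q.divisors, (f d + f (d * P)) := by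
  classical
  have hq0 : q ≠ 0 := NeZero.ne q
  have hQ0 : q * P ≠ 0 := NeZero.ne (q * P)
  have hdisj : Disjoint q.divisors (q.divisors.image (fun d => d * P)) := by
    rw [Finset.disjoint_left]
    intro d hd hd'
    rw [mem_image] at hd'
    obtain ⟨e, -, rfl⟩ := hd'
    exact hPq ((dvd_mul_left P e).trans (Nat.dvd_of_mem_divisors hd))
  have hun : (q * P).divisors = q.divisors ∪ q.divisors.image (fun d => d * P) := by
    ext d
    rw [mem_union, mem_image, Nat.mem_divisors, Nat.mem_divisors]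
    constructor
    · rintro ⟨hd, -⟩
      by_cases hPd : P ∣ d
      · obtain ⟨e, rfl⟩ := hPd
        right
        refine ⟨e, Nat.mem_divisors.2 ⟨?_, hq0⟩, mul_comm _ _⟩
        rw [mul_comm P e] at hd
        exact Nat.dvd_of_mul_dvd_mul_right hP.pos hd
      · left
        have hco : d.Coprime P := ((Nat.Prime.coprime_iff_not_dvd hP).2 hPd).symm
        exact ⟨hco.dvd_of_dvd_mul_right hd, hq0⟩
    · rintro (⟨hd, -⟩ | ⟨e, he, rfl⟩)
      · exact ⟨hd.mul_right P, hQ0⟩
      · exact ⟨Nat.mul_dvd_mul_right (Nat.dvd_of_mem_divisors he) P, hQ0⟩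
  rw [hun, sum_union hdisj, sum_add_distrib]
  congr 1
  rw [sum_image]
  intro a _ b _ h
  exact Nat.eq_of_mul_eq_mul_right hP.pos h

end

theorem el : Pool.Agent.T9h54.FF.S_EL := by
  intro q P _ _ hP hPq χ s
  have : NeZero P := ⟨hP.ne_zero⟩
  classical
  have hPu : IsUnit (P : ZMod q) := by
    rw [ZMod.isUnit_iff_coprime]
    exact (Nat.Prime.coprime_iff_not_dvd hP).2 hPq
  have hPco : P.Coprime q := (Nat.Prime.coprime_iff_not_dvd hP).2 hPq
  have hinvmul : χ⁻¹ (P : ZMod q) * χ (P : ZMod q) = 1 := by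
    rw [← MulChar.mul_apply, inv_mul_cancel, MulChar.one_apply hPu]
  unfold EE
  rw [sum_divisors hP hPq, mul_sum]
  refine sum_congr rfl fun d hd => ?_
  have hdq : d ∣ q := Nat.dvd_of_mem_divisors hd
  have hPd : ¬ P ∣ d := fun h => hPq (h.trans hdq)
  have hco : d.Coprime P := ((Nat.Prime.coprime_iff_not_dvd hP).2 hPd).symm
  have c1 : cc (changeLevel (dvd_mul_right q P) χ) d = -(χ⁻¹ (P : ZMod q)) * cc χ d := by
    rw [cc_lift' hP hPq, if_neg hPd]
    ring
  have c2 : cc (changeLevel (dvd_mul_right q P) χ) (d * P) = ((P : ℂ) - 1) * cc χ d := by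
    rw [cc_lift' hP hPq, if_pos (dvd_mul_left P d), Nat.mul_div_cancel d hP.pos,
      cc_mul χ d P hPco, ← mul_assoc, hinvmul]
    ring
  have c3 : mu (d * P) = -mu d := by
    unfold mu
    rw [ArithmeticFunction.isMultiplicative_moebius.map_mul_of_coprime hco,
      ArithmeticFunction.moebius_apply_prime hP]
    push_cast
    ring
  have c4 : ((d * P : ℕ) : ℂ) ^ (-s) = (d : ℂ) ^ (-s) * (P : ℂ) ^ (-s) := by
    push_cast
    exact Complex.natCast_mul_natCast_cpow d P (-s)
  rw [c1, c2, c3, c4]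
  ring

end Pool.Agent.T9h22.FF
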